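import Mathlib
set_option autoImplicit false
open scoped ComplexConjugate Topology
open Filter UniformSpace

namespace Pool.Agent.H8.CH

universe u

lemma extend_iso {E : Type u} [SeminormedAddCommGroup E] [NormedSpace ℂ E] (σ : E ≃ₗᵢ[ℂ] E) :
    ∃ U : Completion E ≃ₗᵢ[ℂ] Completion E, ∀ x : E, U (x : Completion E) = ((σ x : E) : Completion E) := by
  have hu : UniformContinuous (σ : E → E) := σ.isometry.uniformContinuous
  have hu' : UniformContinuous (σ.symm : E → E) := σ.symm.isometry.uniformContinuous
  have hc : ∀ x : E, Completion.map σ (x : Completion E) = ((σ x : E) : Completion E) :=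
    fun x => Completion.map_coe hu x
  have hc' : ∀ x : E, Completion.map σ.symm (x : Completion E) = ((σ.symm x : E) : Completion E) :=
    fun x => Completion.map_coe hu' x
  have hcont : Continuous (Completion.map (σ : E → E)) := Completion.continuous_map
  have hcont' : Continuous (Completion.map (σ.symm : E → E)) := Completion.continuous_map
  refine ⟨{ toFun := Completion.map σ
            invFun := Completion.map σ.symm
            map_add' := ?_
            map_smul' := ?_
            left_inv := ?_
            right_inv := ?_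
            norm_map' := ?_ }, hc⟩
  · intro x y
    refine Completion.induction_on₂ x y (isClosed_eq (by fun_prop) (by fun_prop)) ?_
    intro a b
    rw [← Completion.coe_add, hc, hc, hc, map_add, Completion.coe_add]
  · intro c x
    refine Completion.induction_on x (isClosed_eq ?_ ?_) ?_
    · exact hcont.comp (continuous_const_smul c)
    · exact (continuous_const_smul (RingHom.id ℂ c)).comp hcont
    intro a
    rw [← Completion.coe_smul, hc, hc, map_smul, Completion.coe_smul]
    rfl
  · intro x
    refine Completion.induction_on x (isClosed_eq (by fun_prop) (by fun_prop)) ?_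
    intro a
    rw [hc, hc', σ.symm_apply_apply]
  · intro x
    refine Completion.induction_on x (isClosed_eq (by fun_prop) (by fun_prop)) ?_
    intro a
    rw [hc', hc, σ.apply_symm_apply]
  · intro x
    change ‖Completion.map σ x‖ = ‖x‖
    refine Completion.induction_on x (isClosed_eq (by fun_prop) (by fun_prop)) ?_
    intro a
    rw [hc, Completion.norm_coe, Completion.norm_coe, σ.norm_map]


variable {G : Type u} [Group G]

/-- A function on `G` which is the Gram function of a family of vectors. -/
def Gram (φ : G → ℂ) : Prop :=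
  ∃ (H : Type u) (_ : NormedAddCommGroup H) (_ : InnerProductSpace ℂ H) (x : G → H),
    ∀ s t, inner ℂ (x s) (x t) = φ (s⁻¹ * t)

lemma Gram.symm {φ : G → ℂ} (h : Gram φ) (n : G) : φ n⁻¹ = conj (φ n) := by
  obtain ⟨H, _, _, x, hx⟩ := h
  have h1 := hx 1 n
  have h2 := hx n 1
  have h3 : inner ℂ (x n) (x 1) = conj (inner ℂ (x 1) (x n)) := (inner_conj_symm _ _).symm
  rw [h1, h2] at h3
  simpa using h3

lemma Gram.nonneg {φ : G → ℂ} (h : Gram φ) (c : G →₀ ℂ) :
    0 ≤ (c.sum fun m a => c.sum fun n b => conj a * b * φ (m⁻¹ * n)).re := by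
  obtain ⟨H, _, _, x, hx⟩ := h
  have : (c.sum fun m a => c.sum fun n b => conj a * b * φ (m⁻¹ * n)) =
      inner ℂ (c.sum fun m a => a • x m) (c.sum fun m a => a • x m) := by
    rw [Finsupp.sum_inner]
    apply Finsupp.sum_congr
    intro m _
    rw [Finsupp.inner_sum]
    apply Finsupp.sum_congr
    intro n _
    rw [inner_smul_left, inner_smul_right, hx]
    ring
  rw [this]
  exact inner_self_nonneg (𝕜 := ℂ)

/-- Positive definite functions. -/
def PD (φ : G → ℂ) : Prop := (∀ n, φ n⁻¹ = conj (φ n)) ∧ ∀ c : G →₀ ℂ,
  0 ≤ (c.sum fun m a => c.sum fun n b => conj a * b * φ (m⁻¹ * n)).re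

/-- sesquilinear form of `φ` -/
noncomputable def sq (φ : G → ℂ) (c d : G →₀ ℂ) : ℂ :=
  c.sum fun m a => d.sum fun n b => conj a * b * φ (m⁻¹ * n)

/-- the GNS core -/
@[reducible] noncomputable def core {φ : G → ℂ} (h : PD φ) :
    PreInnerProductSpace.Core ℂ (G →₀ ℂ) where
  inner := sq φ
  conj_inner_symm f g := by
    unfold sq
    rw [Finsupp.sum_comm]
    simp only [map_finsuppSum]
    apply Finsupp.sum_congr
    intro m _
    apply Finsupp.sum_congr
    intro n _
    rw [map_mul, map_mul, Complex.conj_conj, ← h.1, mul_inv_rev, inv_inv]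
    ring
  add_left f g h := by
    unfold sq
    rw [Finsupp.sum_add_index']
    · simp
    · intro a b c
      simp [← Finsupp.sum_add, add_mul]
  smul_left f g r := by
    unfold sq
    rw [Finsupp.sum_smul_index]
    · rw [Finsupp.mul_sum]
      apply Finsupp.sum_congr
      intro m _
      rw [Finsupp.mul_sum]
      apply Finsupp.sum_congr
      intro n _
      rw [map_mul]; ring
    · simp
  re_inner_nonneg := h.2

lemma sq_single (φ : G → ℂ) (m n : G) :
    sq φ (Finsupp.single m 1) (Finsupp.single n 1) = φ (m⁻¹ * n) := by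
  unfold sq
  rw [Finsupp.sum_single_index, Finsupp.sum_single_index] <;> simp

theorem gns {φ : G → ℂ} (hφ : PD φ) : ∃ (H : Type u) (_ : NormedAddCommGroup H)
    (_ : InnerProductSpace ℂ H)
    (_ : CompleteSpace H) (U : G →* (H ≃ₗᵢ[ℂ] H)) (x : G → H),
    (∀ g n, U g (x n) = x (g * n)) ∧ (∀ m n, inner ℂ (x m) (x n) = φ (m⁻¹ * n)) ∧
    Dense ((Submodule.span ℂ (Set.range x) : Submodule ℂ H) : Set H) := by
  let := core hφ
  let i1 : SeminormedAddCommGroup (G →₀ ℂ) :=
    InnerProductSpace.Core.toSeminormedAddCommGroup (𝕜 := ℂ)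
  let i2 : InnerProductSpace ℂ (G →₀ ℂ) := InnerProductSpace.ofCore _
  have hin : ∀ c d : G →₀ ℂ, inner ℂ c d = sq φ c d := fun _ _ => rfl
  let e : G → ((G →₀ ℂ) ≃ₗ[ℂ] (G →₀ ℂ)) := fun g => Finsupp.domLCongr (Equiv.mulLeft g)
  have he : ∀ g n (a : ℂ), e g (Finsupp.single n a) = Finsupp.single (g * n) a := by
    intro g n a
    simp [e]
  have hsq : ∀ g, ∀ c d : G →₀ ℂ, sq φ (e g c) (e g d) = sq φ c d := by
    intro g c d
    unfold sq
    simp only [e, Finsupp.domLCongr_apply, Finsupp.domCongr_apply,
      Finsupp.equivMapDomain_eq_mapDomain]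
    rw [Finsupp.sum_mapDomain_index_inj (Equiv.injective _)]
    apply Finsupp.sum_congr
    intro m _
    rw [Finsupp.sum_mapDomain_index_inj (Equiv.injective _)]
    apply Finsupp.sum_congr
    intro n _
    simp only [Equiv.coe_mulLeft]
    congr 2
    group
  let σ : G → ((G →₀ ℂ) ≃ₗᵢ[ℂ] (G →₀ ℂ)) := fun g =>
    { e g with
      norm_map' := by
        intro c
        have h1 : ‖e g c‖ ^ 2 = ‖c‖ ^ 2 := by
          rw [← inner_self_eq_norm_sq (𝕜 := ℂ), ← inner_self_eq_norm_sq (𝕜 := ℂ), hin, hin, hsq]
        exact (sq_eq_sq₀ (norm_nonneg _) (norm_nonneg _)).mp h1 }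
  have hex := fun g => extend_iso (σ g)
  choose U hU using hex
  have hσ1 : ∀ c, σ 1 c = c := by
    intro c
    change e 1 c = c
    induction c using Finsupp.induction_linear with
    | zero => exact map_zero _
    | add f g hf hg => rw [map_add, hf, hg]
    | single a b => rw [he, one_mul]
  have hσm : ∀ g h c, σ (g * h) c = σ g (σ h c) := by
    intro g h c
    change e (g * h) c = e g (e h c)
    induction c using Finsupp.induction_linear with
    | zero => simp only [map_zero]
    | add f g hf hg => simp only [map_add, hf, hg]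
    | single a b => rw [he, he, he, mul_assoc]
  let V : G →* (Completion (G →₀ ℂ) ≃ₗᵢ[ℂ] Completion (G →₀ ℂ)) :=
    { toFun := U
      map_one' := by
        ext x
        refine Completion.induction_on x (isClosed_eq (U 1).continuous continuous_id) ?_
        intro a
        rw [hU, hσ1]
        rfl
      map_mul' := by
        intro g h
        ext x
        change U (g * h) x = U g (U h x)
        refine Completion.induction_on x
          (isClosed_eq (U (g * h)).continuous ((U g).continuous.comp (U h).continuous)) ?_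
        intro a
        rw [hU, hU, hU, hσm] }
  refine ⟨Completion (G →₀ ℂ), inferInstance, inferInstance, inferInstance, V,
    fun n => ((Finsupp.single n (1 : ℂ) : G →₀ ℂ) : Completion (G →₀ ℂ)), ?_, ?_, ?_⟩
  · intro g n
    change U g _ = _
    rw [hU]
    change ((e g (Finsupp.single n 1) : G →₀ ℂ) : Completion (G →₀ ℂ)) = _
    rw [he]
  · intro m n
    rw [Completion.inner_coe, hin, sq_single]
  · have hd : DenseRange ((↑) : (G →₀ ℂ) → Completion (G →₀ ℂ)) := Completion.denseRange_coe
    refine hd.mono ?_
    rintro _ ⟨c, rfl⟩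
    induction c using Finsupp.induction_linear with
    | zero => exact Submodule.zero_mem _
    | add f g hf hg => rw [Completion.coe_add]; exact Submodule.add_mem _ hf hg
    | single a b =>
      have : (Finsupp.single a b : G →₀ ℂ) = b • Finsupp.single a 1 := by simp
      rw [this, Completion.coe_smul]
      exact Submodule.smul_mem _ _ (Submodule.subset_span ⟨a, rfl⟩)

end Pool.Agent.H8.CH
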