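import Pool.Agent.H8.CH.Pd
set_option autoImplicit false
open scoped ComplexConjugate Topology
open Filter

namespace Pool.Agent.H8.CH

universe u

variable {G : Type u} [Group G]

/-- The set of all products of some of the `g 0, ..., g (n-1)` and their inverses. -/
def S (g : ℕ → G) : ℕ → Set G
  | 0 => {1}
  | n + 1 => S g n ∪ {x | x * g n ∈ S g n} ∪ {x | x * (g n)⁻¹ ∈ S g n}

/-- Each term is far from the products of the earlier ones. -/
def Sparse (g : ℕ → G) : Prop := ∀ n, ∀ x ∈ S g n, x * g n ∉ S g n ∧ x * (g n)⁻¹ ∉ S g n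

open Classical in
/-- The partial Riesz products. -/
noncomputable def ph (g : ℕ → G) (c : ℕ → ℂ) : ℕ → G → ℂ
  | 0 => fun x => if x = 1 then 1 else 0
  | n + 1 => fun x => ph g c n x +
      (c n * ph g c n (x * g n) + conj (c n) * ph g c n (x * (g n)⁻¹))

lemma S_succ (g : ℕ → G) (n : ℕ) : S g n ⊆ S g (n + 1) := fun _ hx => Or.inl (Or.inl hx)

lemma S_mono (g : ℕ → G) {m n : ℕ} (h : m ≤ n) : S g m ⊆ S g n := by
  induction n, h using Nat.le_induction with
  | base => exact subset_rfl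
  | succ n _ ih => exact ih.trans (S_succ g n)

lemma one_mem_S (g : ℕ → G) (n : ℕ) : (1 : G) ∈ S g n := S_mono g (Nat.zero_le n) rfl

lemma ph_supp (g : ℕ → G) (c : ℕ → ℂ) (n : ℕ) : ∀ x, x ∉ S g n → ph g c n x = 0 := by
  induction n with
  | zero =>
    intro x hx
    have : x ≠ 1 := fun h => hx h
    simp [ph, this]
  | succ n ih =>
    intro x hx
    have h1 : x ∉ S g n := fun h => hx (Or.inl (Or.inl h))
    have h2 : x * g n ∉ S g n := fun h => hx (Or.inl (Or.inr h))
    have h3 : x * (g n)⁻¹ ∉ S g n := fun h => hx (Or.inr h)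
    simp only [ph]
    rw [ih _ h1, ih _ h2, ih _ h3]
    ring

lemma ph_stab {g : ℕ → G} (hg : Sparse g) (c : ℕ → ℂ) {n : ℕ} {x : G} (hx : x ∈ S g n) :
    ph g c (n + 1) x = ph g c n x := by
  simp only [ph]
  rw [ph_supp g c n _ (hg n x hx).1, ph_supp g c n _ (hg n x hx).2]
  ring

lemma ph_one {g : ℕ → G} (hg : Sparse g) (c : ℕ → ℂ) (n : ℕ) : ph g c n 1 = 1 := by
  induction n with
  | zero => simp [ph]
  | succ n ih => rw [ph_stab hg c (one_mem_S g n), ih]

lemma not_mem_S {g : ℕ → G} (hg : Sparse g) (n : ℕ) : g n ∉ S g n ∧ (g n)⁻¹ ∉ S g n := by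
  have := hg n 1 (one_mem_S g n)
  rwa [one_mul, one_mul] at this

lemma mem_S_succ (g : ℕ → G) (n : ℕ) : g n ∈ S g (n + 1) ∧ (g n)⁻¹ ∈ S g (n + 1) := by
  refine ⟨Or.inr ?_, Or.inl (Or.inr ?_)⟩
  · change g n * (g n)⁻¹ ∈ S g n
    rw [mul_inv_cancel]; exact one_mem_S g n
  · change (g n)⁻¹ * g n ∈ S g n
    rw [inv_mul_cancel]; exact one_mem_S g n

lemma ph_at {g : ℕ → G} (hg : Sparse g) (c : ℕ → ℂ) (n : ℕ) :
    ph g c (n + 1) (g n) = c n * ph g c n (g n * g n) + conj (c n) := by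
  simp only [ph]
  rw [ph_supp g c n _ (not_mem_S hg n).1, mul_inv_cancel, ph_one hg]
  ring

lemma step_bound {c u v : ℂ} {M : ℝ} (hc : ‖c‖ ≤ 1 / 8) (hu : ‖u‖ ≤ M) (hv : ‖v‖ ≤ M) :
    ‖c * u + conj c * v‖ ≤ M / 4 := by
  have hM : 0 ≤ M := (norm_nonneg _).trans hu
  have h1 : ‖c * u‖ ≤ 1 / 8 * M := by
    rw [norm_mul]; exact mul_le_mul hc hu (norm_nonneg _) (by norm_num)
  have h2 : ‖conj c * v‖ ≤ 1 / 8 * M := by
    rw [norm_mul, RCLike.norm_conj]; exact mul_le_mul hc hv (norm_nonneg _) (by norm_num)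
  have := norm_add_le (c * u) (conj c * v)
  linarith

lemma ph_eventually {g : ℕ → G} (hg : Sparse g) (c : ℕ → ℂ) (x : G) :
    ∃ N, ∀ n ≥ N, ph g c n x = ph g c N x := by
  by_cases h : ∃ n, x ∈ S g n
  · obtain ⟨N, hN⟩ := h
    refine ⟨N, fun n hn => ?_⟩
    induction n, hn using Nat.le_induction with
    | base => rfl
    | succ n hn ih => rw [ph_stab hg c (S_mono g hn hN), ih]
  · push Not at h
    exact ⟨0, fun n _ => by rw [ph_supp g c n x (h n), ph_supp g c 0 x (h 0)]⟩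

lemma ph_comm {g : ℕ → G} (hgc : ∀ m n, g m * g n = g n * g m) (c : ℕ → ℂ) (n : ℕ) :
    ∀ m x, ph g c n (g m * x) = ph g c n (x * g m) := by
  induction n with
  | zero =>
    intro m x
    simp only [ph]
    have : g m * x = 1 ↔ x * g m = 1 := by
      rw [mul_eq_one_iff_eq_inv', mul_eq_one_iff_eq_inv]
    by_cases h : g m * x = 1
    · rw [if_pos h, if_pos (this.mp h)]
    · rw [if_neg h, if_neg (fun h' => h (this.mpr h'))]
  | succ n ih =>
    intro m x
    simp only [ph]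
    have h1 : x * g m * g n = x * g n * g m := by rw [mul_assoc, hgc m n, ← mul_assoc]
    have h2 : x * g m * (g n)⁻¹ = x * (g n)⁻¹ * g m := by
      rw [mul_assoc, mul_assoc]; congr 1
      rw [eq_inv_mul_iff_mul_eq, ← mul_assoc, ← hgc m n, mul_inv_cancel_right]
    rw [ih, mul_assoc, mul_assoc, ih, ih, h1, h2]

lemma ph_comm_inv {g : ℕ → G} (hgc : ∀ m n, g m * g n = g n * g m) (c : ℕ → ℂ) (n m : ℕ)
    (x : G) : ph g c n ((g m)⁻¹ * x) = ph g c n (x * (g m)⁻¹) := by
  have := ph_comm hgc c n m ((g m)⁻¹ * x * (g m)⁻¹)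
  rw [inv_mul_cancel_right, mul_assoc, mul_inv_cancel_left] at this
  exact this.symm

lemma gram_zero (g : ℕ → G) (c : ℕ → ℂ) : Gram (ph g c 0) := by
  classical
  refine ⟨lp (fun _ : G => ℂ) 2, inferInstance, inferInstance, fun s => lp.single 2 s 1, ?_⟩
  intro s t
  rw [lp.inner_single_left, lp.single_apply]
  simp only [ph]
  by_cases h : s = t
  · subst h; simp
  · have h1 : s⁻¹ * t ≠ 1 := fun h' => h (inv_mul_eq_one.mp h')
    simp [h1, h]

lemma gram_succ {g : ℕ → G} (hgc : ∀ m n, g m * g n = g n * g m) {c : ℕ → ℂ}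
    (n : ℕ) (hc' : ‖c n‖ ≤ 1 / 8) (h : Gram (ph g c n)) :
    Gram (ph g c (n + 1)) := by
  obtain ⟨H, i1, i2, x, hx⟩ := h
  obtain ⟨a, b, hab, hab'⟩ : ∃ (a : ℝ) (b : ℂ), (a : ℂ) * a + conj b * b = 1 ∧ a * b = c n := by
    have h0 : 0 ≤ ‖c n‖ := norm_nonneg _
    have h1 : 0 ≤ 1 - 4 * ‖c n‖ ^ 2 := by nlinarith
    have h3 := Real.mul_self_sqrt h1
    have h4 := Real.sqrt_nonneg (1 - 4 * ‖c n‖ ^ 2)
    set r := √(1 - 4 * ‖c n‖ ^ 2) with hr
    set A := (1 + r) / 2 with hA
    have hA0 : 0 < A := by rw [hA]; linarith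
    have hA1 : A * (1 - A) = ‖c n‖ ^ 2 := by rw [hA]; nlinarith
    have hs := Real.mul_self_sqrt hA0.le
    have hs0 : √A ≠ 0 := (Real.sqrt_pos.mpr hA0).ne'
    have hsc : ((√A : ℝ) : ℂ) ≠ 0 := by exact_mod_cast hs0
    refine ⟨√A, c n / (√A : ℝ), ?_, ?_⟩
    · rw [map_div₀, Complex.conj_ofReal, div_mul_div_comm, ← Complex.ofReal_mul, hs,
        ← Complex.normSq_eq_conj_mul_self, Complex.normSq_eq_norm_sq, ← hA1,
        ← Complex.ofReal_div, ← Complex.ofReal_add, mul_div_cancel_left₀ _ hA0.ne']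
      norm_num
    · field_simp
  have hab2 : conj b * a = conj (c n) := by
    rw [← hab', map_mul, Complex.conj_ofReal, mul_comm]
  refine ⟨H, i1, i2, fun s => (a : ℂ) • x s + b • x (s * g n), ?_⟩
  intro s t
  simp only [inner_add_left, inner_add_right, inner_smul_left, inner_smul_right, hx,
    Complex.conj_ofReal]
  have e1 : s⁻¹ * (t * g n) = s⁻¹ * t * g n := (mul_assoc _ _ _).symm
  have e2 : ph g c n ((s * g n)⁻¹ * t) = ph g c n (s⁻¹ * t * (g n)⁻¹) := by
    rw [mul_inv_rev, mul_assoc, ph_comm_inv hgc]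
  have e3 : ph g c n ((s * g n)⁻¹ * (t * g n)) = ph g c n (s⁻¹ * t) := by
    rw [mul_inv_rev, mul_assoc, ph_comm_inv hgc, e1, mul_inv_cancel_right]
  rw [e1, e2, e3]
  simp only [ph]
  linear_combination (ph g c n (s⁻¹ * t)) * hab +
    (ph g c n (s⁻¹ * t * g n)) * hab' + (ph g c n (s⁻¹ * t * (g n)⁻¹)) * hab2

lemma gram_ph {g : ℕ → G} (hgc : ∀ m n, g m * g n = g n * g m) {c : ℕ → ℂ}
    (hc' : ∀ n, ‖c n‖ ≤ 1 / 8) (n : ℕ) : Gram (ph g c n) := by
  induction n with
  | zero => exact gram_zero g c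
  | succ n ih => exact gram_succ hgc n (hc' n) ih

open Classical in
/-- the coefficient producing the value `τ` -/
noncomputable def kap (p : Prop) (τ q : ℂ) : ℂ :=
  if p then τ / 2 else (conj τ - conj q * τ) / (1 - q * conj q)

lemma kap_spec {p : Prop} {τ q : ℂ} (hp : p → q = 1 ∧ conj τ = τ) (hq : ¬ p → ‖q‖ ≤ 3 / 32)
    (hτ : ‖τ‖ ≤ 3 / 32) : ‖kap p τ q‖ ≤ 1 / 8 ∧ kap p τ q * q + conj (kap p τ q) = τ := by
  unfold kap
  by_cases h : p
  · obtain ⟨h1, h2⟩ := hp h
    rw [if_pos h, h1, map_div₀, h2]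
    constructor
    · rw [norm_div]
      have : ‖(2 : ℂ)‖ = 2 := by norm_num
      rw [this]; linarith
    · have : conj (2 : ℂ) = 2 := Complex.conj_ofNat 2
      rw [this]; ring
  · rw [if_neg h]
    have h1 := hq h
    have h0 := norm_nonneg q
    have hnq : ‖q * conj q‖ ≤ 9 / 1024 := by
      rw [norm_mul, RCLike.norm_conj]; nlinarith
    have hden : 1015 / 1024 ≤ ‖1 - q * conj q‖ := by
      have := norm_sub_norm_le (1 : ℂ) (q * conj q)
      rw [norm_one] at this
      linarith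
    have hne : 1 - q * conj q ≠ 0 := by
      intro h'
      rw [h', norm_zero] at hden
      linarith
    constructor
    · rw [norm_div, div_le_iff₀ (by linarith)]
      have h2 : ‖conj τ - conj q * τ‖ ≤ 3 / 32 + 3 / 32 * (3 / 32) := by
        refine (norm_sub_le _ _).trans ?_
        rw [norm_mul, RCLike.norm_conj, RCLike.norm_conj]
        exact add_le_add hτ (mul_le_mul h1 hτ (norm_nonneg _) (by norm_num))
      linarith
    · have hd2 : conj (1 - q * conj q) = 1 - q * conj q := by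
        rw [map_sub, map_mul, Complex.conj_conj, map_one, mul_comm (conj q)]
      rw [map_div₀, hd2, div_mul_eq_mul_div, ← add_div, div_eq_iff hne, map_sub, map_mul,
        Complex.conj_conj, Complex.conj_conj]
      ring

open Classical in
/-- The partial Riesz products with prescribed values. -/
noncomputable def ph' (g : ℕ → G) (τ : ℕ → ℂ) : ℕ → G → ℂ
  | 0 => fun x => if x = 1 then 1 else 0
  | n + 1 => fun x => ph' g τ n x +
      (kap (g n * g n = 1) (τ n) (ph' g τ n (g n * g n)) * ph' g τ n (x * g n) +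
        conj (kap (g n * g n = 1) (τ n) (ph' g τ n (g n * g n))) * ph' g τ n (x * (g n)⁻¹))

lemma ph'_eq (g : ℕ → G) (τ : ℕ → ℂ) (n : ℕ) :
    ph g (fun n => kap (g n * g n = 1) (τ n) (ph' g τ n (g n * g n))) n = ph' g τ n := by
  induction n with
  | zero => rfl
  | succ n ih => ext x; simp only [ph, ph']; rw [ih]

lemma ph_bound {g : ℕ → G} (hg : Sparse g) (hgc : ∀ m n, g m * g n = g n * g m) {τ : ℕ → ℂ}
    (hτ : ∀ n, ‖τ n‖ ≤ 3 / 32) (hτ' : ∀ n, g n * g n = 1 → conj (τ n) = τ n) {c : ℕ → ℂ}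
    (hc : ∀ n, c n = kap (g n * g n = 1) (τ n) (ph g c n (g n * g n))) (n : ℕ) :
    Gram (ph g c n) ∧ (∀ x, x ≠ 1 → ‖ph g c n x‖ ≤ 3 / 32) := by
  induction n with
  | zero =>
    refine ⟨gram_zero g c, ?_⟩
    intro x hx; simp only [ph]; rw [if_neg hx, norm_zero]; norm_num
  | succ n ih =>
    obtain ⟨ih1, ih2⟩ := ih
    have hk := kap_spec (p := g n * g n = 1) (τ := τ n) (q := ph g c n (g n * g n))
      (fun h => ⟨by rw [h, ph_one hg], hτ' n h⟩) (fun h => ih2 _ h) (hτ n)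
    rw [← hc] at hk
    have hG : Gram (ph g c (n + 1)) := gram_succ hgc n hk.1 ih1
    refine ⟨hG, ?_⟩
    intro x hx
    by_cases hS : x ∈ S g n
    · rw [ph_stab hg c hS]; exact ih2 x hx
    by_cases h1 : x = g n
    · rw [h1, ph_at hg, hk.2]; exact hτ n
    by_cases h2 : x = (g n)⁻¹
    · rw [h2, hG.symm, RCLike.norm_conj, ph_at hg, hk.2]; exact hτ n
    have h3 := ih2 (x * g n) (fun h => h2 (eq_inv_of_mul_eq_one_left h))
    have h4 := ih2 (x * (g n)⁻¹) (fun h => h1 (by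
      have := eq_inv_of_mul_eq_one_left h; rwa [inv_inv] at this))
    simp only [ph]
    rw [ph_supp g c n _ hS, zero_add]
    exact (step_bound hk.1 h3 h4).trans (by norm_num)

/-- The positive definite function. -/
theorem exists_pd {g : ℕ → G} (hg : Sparse g) (hgc : ∀ m n, g m * g n = g n * g m) (τ : ℕ → ℂ)
    (hτ : ∀ n, ‖τ n‖ ≤ 3 / 32) (hτ' : ∀ n, g n * g n = 1 → conj (τ n) = τ n) :
    ∃ φ : G → ℂ, PD φ ∧ φ 1 = 1 ∧ (∀ x, ‖φ x‖ ≤ 1) ∧ (∀ n, φ (g n) = τ n) ∧
      ∀ x, x ≠ 1 → (∀ n, x ≠ g n ∧ x ≠ (g n)⁻¹) → ‖φ x‖ ≤ 3 / 128 := by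
  classical
  let c : ℕ → ℂ := fun n => kap (g n * g n = 1) (τ n) (ph' g τ n (g n * g n))
  have hpc : ∀ n, ph g c n = ph' g τ n := ph'_eq g τ
  have hc : ∀ n, c n = kap (g n * g n = 1) (τ n) (ph g c n (g n * g n)) := by
    intro n; rw [hpc]
  have hb := ph_bound hg hgc hτ hτ' hc
  have hk : ∀ n, ‖c n‖ ≤ 1 / 8 ∧ c n * ph g c n (g n * g n) + conj (c n) = τ n := by
    intro n
    have hk := kap_spec (p := g n * g n = 1) (τ := τ n) (q := ph g c n (g n * g n))
      (fun h => ⟨by rw [h, ph_one hg], hτ' n h⟩) (fun h => (hb n).2 _ h) (hτ n)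
    rwa [← hc] at hk
  choose N hN using ph_eventually hg c
  have h32 : ∀ x, x ≠ 1 → ‖ph g c (N x) x‖ ≤ 3 / 32 := fun x hx => (hb _).2 x hx
  refine ⟨fun x => ph g c (N x) x, ⟨?_, ?_⟩, ph_one hg c _, ?_, ?_, ?_⟩
  · intro x
    change ph g c (N x⁻¹) x⁻¹ = conj (ph g c (N x) x)
    rw [← hN x⁻¹ (max (N x) (N x⁻¹)) (le_max_right _ _), ← hN x (max (N x) (N x⁻¹)) (le_max_left _ _)]
    exact (hb _).1.symm x
  · intro d
    obtain ⟨K, hK⟩ : ∃ K : ℕ, ∀ m ∈ d.support, ∀ n ∈ d.support, N (m⁻¹ * n) ≤ K := by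
      refine ⟨d.support.sup (fun m => d.support.sup fun n => N (m⁻¹ * n)), ?_⟩
      intro m hm n hn
      exact (Finset.le_sup (f := fun n => N (m⁻¹ * n)) hn).trans
        (Finset.le_sup (f := fun m => d.support.sup fun n => N (m⁻¹ * n)) hm)
    have : (d.sum fun m a => d.sum fun n b =>
        conj a * b * (fun x => ph g c (N x) x) (m⁻¹ * n)) =
        (d.sum fun m a => d.sum fun n b => conj a * b * ph g c K (m⁻¹ * n)) := by
      apply Finset.sum_congr rfl
      intro m hm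
      apply Finset.sum_congr rfl
      intro n hn
      beta_reduce
      rw [hN _ K (hK m hm n hn)]
    rw [this]
    exact (hb K).1.nonneg d
  · intro x
    by_cases hx : x = 1
    · subst hx
      change ‖ph g c (N 1) 1‖ ≤ 1
      rw [ph_one hg, norm_one]
    · exact (h32 x hx).trans (by norm_num)
  · intro n
    have h3 : ∀ x ∈ S g (n + 1), ph g c (N x) x = ph g c (n + 1) x := by
      intro x hx
      have h4 : ∀ m ≥ n + 1, ph g c m x = ph g c (n + 1) x := by
        intro m hm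
        induction m, hm using Nat.le_induction with
        | base => rfl
        | succ m hm ih => rw [ph_stab hg c (S_mono g hm hx), ih]
      rw [← hN x (max (N x) (n + 1)) (le_max_left _ _), h4 _ (le_max_right _ _)]
    change ph g c (N (g n)) (g n) = τ n
    rw [h3 _ (mem_S_succ g n).1, ph_at hg, (hk n).2]
  · intro x hx hx'
    have key : ∀ n, ‖ph g c n x‖ ≤ 3 / 128 := by
      intro n
      induction n with
      | zero => simp only [ph]; rw [if_neg hx, norm_zero]; norm_num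
      | succ n ih =>
        by_cases hS : x ∈ S g n
        · rw [ph_stab hg c hS]; exact ih
        · obtain ⟨h1, h2⟩ := hx' n
          have h3 := (hb n).2 (x * g n) (fun h => h2 (eq_inv_of_mul_eq_one_left h))
          have h4 := (hb n).2 (x * (g n)⁻¹) (fun h => h1 (by
            have := eq_inv_of_mul_eq_one_left h; rwa [inv_inv] at this))
          simp only [ph]
          rw [ph_supp g c n _ hS, zero_add]
          exact (step_bound (hk n).1 h3 h4).trans (by norm_num)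
    exact key _

lemma S_inv (g : ℕ → G) (n : ℕ) : S (fun n => (g n)⁻¹) n = S g n := by
  induction n with
  | zero => rfl
  | succ n ih =>
    simp only [S, ih, inv_inv]
    ext x
    simp only [Set.mem_union, Set.mem_setOf_eq]
    tauto

lemma sparse_inv {g : ℕ → G} (hg : Sparse g) : Sparse (fun n => (g n)⁻¹) := by
  intro n x hx
  rw [S_inv] at hx ⊢
  have := hg n x hx
  simp only [inv_inv]
  exact ⟨this.2, this.1⟩

/-- list version of `S` -/
def Sl : List G → Set G
  | [] => {1}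
  | a :: l => Sl l ∪ {x | x * a ∈ Sl l} ∪ {x | x * a⁻¹ ∈ Sl l}

lemma Sl_finite (l : List G) : (Sl l).Finite := by
  induction l with
  | nil => exact Set.finite_singleton _
  | cons a l ih =>
    refine (ih.union ?_).union ?_
    · exact ih.preimage (mul_left_injective a).injOn
    · exact ih.preimage (mul_left_injective a⁻¹).injOn

theorem exists_sparse {E : Set G} (hE : E.Infinite) : ∃ g : ℕ → G, Sparse g ∧ ∀ n, g n ∈ E := by
  have key : ∀ l : List G, ∃ a ∈ E, ∀ x ∈ Sl l, x * a ∉ Sl l ∧ x * a⁻¹ ∉ Sl l := by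
    intro l
    have hf : (Set.image2 (fun x y => x⁻¹ * y) (Sl l) (Sl l) ∪
        Set.image2 (fun x y => y⁻¹ * x) (Sl l) (Sl l)).Finite :=
      ((Sl_finite l).image2 _ (Sl_finite l)).union ((Sl_finite l).image2 _ (Sl_finite l))
    obtain ⟨a, ha, ha'⟩ := (hE.sdiff hf).nonempty
    refine ⟨a, ha, fun x hx => ⟨fun h => ha' (Or.inl ⟨x, hx, x * a, h, ?_⟩),
      fun h => ha' (Or.inr ⟨x, hx, x * a⁻¹, h, ?_⟩)⟩⟩
    · simp
    · simp
  choose nx hnx hnx' using key
  let L : ℕ → List G := fun n => Nat.rec [] (fun _ l => nx l :: l) n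
  have hS : ∀ n, S (fun k => nx (L k)) n = Sl (L n) := by
    intro n
    induction n with
    | zero => rfl
    | succ n ih =>
      change S (fun k => nx (L k)) n ∪ {x | x * nx (L n) ∈ S (fun k => nx (L k)) n} ∪
        {x | x * (nx (L n))⁻¹ ∈ S (fun k => nx (L k)) n} = Sl (nx (L n) :: L n)
      rw [ih]
      rfl
  refine ⟨fun k => nx (L k), ?_, fun n => hnx _⟩
  intro n x hx
  rw [hS] at hx ⊢
  exact hnx' (L n) x hx

lemma sparse_inj {g : ℕ → G} (hg : Sparse g) : Function.Injective g := by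
  have h : ∀ m n, m < n → g m ≠ g n := by
    intro m n hmn h
    apply (not_mem_S hg n).1
    rw [← h]
    exact S_mono g hmn (mem_S_succ g m).1
  intro m n hmn
  rcases lt_trichotomy m n with h' | h' | h'
  · exact absurd hmn (h m n h')
  · exact h'
  · exact absurd hmn.symm (h n m h')

lemma level {g : ℕ → G} (hg : Sparse g) (hgc : ∀ m n, g m * g n = g n * g m) (y : G) :
    ∃ m, ∀ n ≥ m, ∀ j ≠ n, y * g n ≠ g j ∧ y * g n ≠ (g j)⁻¹ := by
  by_cases hy : ∃ m, y ∈ S g m
  · obtain ⟨m, hm⟩ := hy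
    refine ⟨m, fun n hn j hj => ?_⟩
    have hyn : y ∈ S g n := S_mono g hn hm
    rcases lt_or_gt_of_ne hj with h | h
    · have h1 := (hg n y hyn).1
      exact ⟨fun h' => h1 (h' ▸ S_mono g h (mem_S_succ g j).1),
        fun h' => h1 (h' ▸ S_mono g h (mem_S_succ g j).2)⟩
    · have h1 : y * g n ∈ S g (n + 1) := by
        refine Or.inr ?_
        change y * g n * (g n)⁻¹ ∈ S g n
        rwa [mul_inv_cancel_right]
      have h2 : y * g n ∈ S g j := S_mono g h h1
      exact ⟨fun h' => (not_mem_S hg j).1 (h' ▸ h2), fun h' => (not_mem_S hg j).2 (h' ▸ h2)⟩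
  · push Not at hy
    have hcomm : ∀ m n, (g m)⁻¹ * g n = g n * (g m)⁻¹ := by
      intro m n
      rw [inv_mul_eq_iff_eq_mul, ← mul_assoc, hgc m n, mul_inv_cancel_right]
    have hcomm' : ∀ m n, (g m)⁻¹ * (g n)⁻¹ = (g n)⁻¹ * (g m)⁻¹ := by
      intro m n
      rw [← mul_inv_rev, ← mul_inv_rev, hgc]
    refine ⟨0, fun n _ j hj => ?_⟩
    rcases lt_or_gt_of_ne hj with h | h
    · constructor
      · intro h'
        refine hy (n + 1) (Or.inl (Or.inr ?_))
        change y * g n ∈ S g n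
        rw [h']; exact S_mono g h (mem_S_succ g j).1
      · intro h'
        refine hy (n + 1) (Or.inl (Or.inr ?_))
        change y * g n ∈ S g n
        rw [h']; exact S_mono g h (mem_S_succ g j).2
    · constructor
      · intro h'
        refine hy (j + 1) (Or.inr ?_)
        change y * (g j)⁻¹ ∈ S g j
        have : y = g j * (g n)⁻¹ := eq_mul_inv_of_mul_eq h'
        rw [this, ← hcomm, mul_inv_cancel_right]
        exact S_mono g h (mem_S_succ g n).2
      · intro h'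
        refine hy (j + 1) (Or.inl (Or.inr ?_))
        change y * g j ∈ S g j
        have : y = (g j)⁻¹ * (g n)⁻¹ := eq_mul_inv_of_mul_eq h'
        rw [this, hcomm', inv_mul_cancel_right]
        exact S_mono g h (mem_S_succ g n).2

end Pool.Agent.H8.CH
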